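import Pool.Agent.BEN.StmtsB

/-!
# BEN row CUA (helper40): closure properties of the curves of jets
-/

namespace Pool.Agent.BEN.H40

open Set Filter Topology MeasureTheory
open scoped InnerProductSpace ENNReal
open Pool.Agent.BEN

theorem cua : CuaStmt := by
  intro T _ μ _ s t0
  refine ⟨?_, ?_, ?_, ?_, ?_, ?_⟩
  · refine ⟨continuousOn_const, fun j ι _ t _ => ?_⟩
    have h : HasDerivAt (fun _ : ℝ => ι ((0 : Jt s μ) j.castSucc)) 0 t := hasDerivAt_const t _
    exact h
  · rintro x y ⟨hx, hx'⟩ hxy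
    refine ⟨hx.congr fun t ht => hxy t ht, fun j ι hι t ht => ?_⟩
    rw [hxy t ht]
    refine (hx' j ι hι t ht).congr_of_eventuallyEq ?_
    filter_upwards [Ioi_mem_nhds ht] with r hr
    rw [hxy r hr]
  · rintro t1 x h01 ⟨hx, hx'⟩
    exact ⟨hx.mono (Ioi_subset_Ioi h01), fun j ι hι t ht => hx' j ι hι t (lt_of_le_of_lt h01 ht)⟩
  · rintro x y ⟨hx, hx'⟩ ⟨hy, hy'⟩
    refine ⟨hx.add hy, fun j ι hι t ht => ?_⟩
    have h := (hx' j ι hι t ht).add (hy' j ι hι t ht)
    refine h.congr_of_eventuallyEq (Eventually.of_forall fun r => ?_)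
    show ι (x r j.castSucc + y r j.castSucc) = ι (x r j.castSucc) + ι (y r j.castSucc)
    exact map_add _ _ _
  · rintro c x ⟨hx, hx'⟩
    refine ⟨hx.const_smul c, fun j ι hι t ht => ?_⟩
    have h := (hx' j ι hι t ht).const_smul c
    refine h.congr_of_eventuallyEq (Eventually.of_forall fun r => ?_)
    show ι (c • x r j.castSucc) = c • ι (x r j.castSucc)
    exact map_smul _ _ _
  · intro x y hx hxy
    refine ⟨hxy.continuousOn (Frequently.of_forall fun n => (hx n).1), fun j ι hι t ht => ?_⟩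
    have h1 : TendstoUniformlyOn (fun n t => x n t j.succ) (fun t => y t j.succ) atTop (Ioi t0) :=
      (Pi.uniformContinuous_proj (fun i : Fin (s + 1) => Lp ℝ (qe s (i : ℕ)) μ)
        j.succ).comp_tendstoUniformlyOn hxy
    refine hasDerivAt_of_tendstoUniformlyOn isOpen_Ioi h1
      (Eventually.of_forall fun n r hr => (hx n).2 j ι hι r hr) (fun r hr => ?_) ht
    have h2 : Tendsto (fun n => x n r) atTop (𝓝 (y r)) := hxy.tendsto_at hr
    exact (ι.continuous.tendsto _).comp (((continuous_apply j.castSucc).tendsto (y r)).comp h2)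

end Pool.Agent.BEN.H40
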